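import Pool.Agent.Helper4.DE5
import Pool.Agent.Helper28.PC.Mert

/-!
# FL (MP_8be7de_nt), part 1: an inequality of the type of Erdos for primitive sets

`S` is closed under multiples, `AS S` is the set of the `a ∈ S` with `a / P ∉ S`, `P` the greatest
prime factor of `a`.  The sum of `1 / (a log a)` over `AS S` is at most `exp 6`.
-/

set_option autoImplicit false

namespace Pool.Agent.Helper84.FL

open Finset Filter Topology
open Pool.Agent.Helper4.DE (C Lg LogDens IsMultClosed t)

/-- the elements `a` of `S` such that `a / P` is not in `S`, `P` the greatest prime factor -/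
def AS (S : Set ℕ) : Set ℕ :=
  {a | a ∈ S ∧ 0 < a ∧ ∃ P : ℕ, P.Prime ∧ P ∣ a ∧ (∀ q : ℕ, q.Prime → q ∣ a → q ≤ P) ∧ a / P ∉ S}

/-- the density of the integers coprime to the primorial -/
noncomputable def rh (n : ℕ) : ℝ := ∏ p ∈ n.primesLE, (1 - 1 / (p : ℝ))

theorem sum_inv_sub_one (n : ℕ) (hn : 2 ≤ n) :
    ∑ p ∈ n.primesLE, 1 / ((p : ℝ) - 1) ≤ Real.log (Real.log n) + 6 := by
  have h1 : ∑ p ∈ n.primesLE, (1 / ((p : ℝ) - 1) - 1 / p) ≤ 1 := by
    calc ∑ p ∈ n.primesLE, (1 / ((p : ℝ) - 1) - 1 / p)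
        ≤ ∑ p ∈ Finset.Ioc 1 n, (1 / ((p : ℝ) - 1) - 1 / p) := by
          apply Finset.sum_le_sum_of_subset_of_nonneg
          · intro p hp
            rw [Nat.mem_primesLE] at hp
            rw [Finset.mem_Ioc]
            exact ⟨hp.2.one_lt, hp.1⟩
          · intro p hp _
            rw [Finset.mem_Ioc] at hp
            have h2 : (1 : ℝ) < p := by exact_mod_cast hp.1
            rw [sub_nonneg]
            exact one_div_le_one_div_of_le (by linarith) (by linarith)
      _ = 1 - 1 / n := by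
          have h1n : 1 ≤ n := by omega
          clear hn
          induction n, h1n using Nat.le_induction with
          | base => simp
          | succ n hn ih =>
            rw [Finset.sum_Ioc_succ_top hn, ih]
            push_cast
            ring
      _ ≤ 1 := by
          have : (0 : ℝ) ≤ 1 / n := by positivity
          linarith
  rw [Finset.sum_sub_distrib] at h1
  have h2 := Pool.Agent.Helper28.PC.sum_inv_le hn
  linarith

theorem rh_ge {n : ℕ} (hn : 2 ≤ n) : Real.exp (-6) / Real.log n ≤ rh n := by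
  have hlog : 0 < Real.log n := Real.log_pos (by exact_mod_cast (by omega : 1 < n))
  have h1 : Real.exp (-∑ p ∈ n.primesLE, 1 / ((p : ℝ) - 1)) ≤ rh n := by
    unfold rh
    rw [← Finset.sum_neg_distrib, Real.exp_sum]
    refine Finset.prod_le_prod (fun p _ => (Real.exp_pos _).le) fun p hp => ?_
    rw [Nat.mem_primesLE] at hp
    have h2 : (1 : ℝ) < p := by exact_mod_cast hp.2.one_lt
    have h3 := Real.add_one_le_exp (1 / ((p : ℝ) - 1))
    rw [Real.exp_neg]
    have h4 : 1 / ((p : ℝ) - 1) + 1 = (1 - 1 / (p : ℝ))⁻¹ := by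
      have h5 : (p : ℝ) - 1 ≠ 0 := by linarith
      have h6 : (p : ℝ) ≠ 0 := by linarith
      have h7 : 1 - 1 / (p : ℝ) = ((p : ℝ) - 1) / p := by field_simp
      rw [h7, inv_div]
      field_simp
      ring
    rw [h4] at h3
    have h8 : 0 < 1 - 1 / (p : ℝ) := by
      rw [sub_pos, div_lt_one (by linarith)]
      exact h2
    calc (Real.exp (1 / ((p : ℝ) - 1)))⁻¹ ≤ ((1 - 1 / (p : ℝ))⁻¹)⁻¹ :=
          inv_anti₀ (inv_pos.2 h8) h3
      _ = 1 - 1 / (p : ℝ) := inv_inv _
  refine le_trans ?_ h1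
  have h2 := sum_inv_sub_one n hn
  calc Real.exp (-6) / Real.log n = Real.exp (-6 - Real.log (Real.log n)) := by
        rw [Real.exp_sub, Real.exp_log hlog]
    _ ≤ Real.exp (-∑ p ∈ n.primesLE, 1 / ((p : ℝ) - 1)) := by
        apply Real.exp_le_exp.2
        linarith

/-- the primorial -/
noncomputable def pr (n : ℕ) : ℕ := ∏ p ∈ n.primesLE, p

theorem pr_pos (n : ℕ) : 0 < pr n := by
  unfold pr
  refine Finset.prod_pos fun p hp => ?_
  rw [Nat.mem_primesLE] at hp
  exact hp.2.pos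

theorem totient_pr (n : ℕ) : (Nat.totient (pr n) : ℝ) = pr n * rh n := by
  have h1 := Nat.totient_eq_mul_prod_factors (pr n)
  have h2 : (pr n).primeFactors = n.primesLE := by
    unfold pr
    exact Nat.primeFactors_prod fun p hp => (Nat.mem_primesLE.1 hp).2
  rw [h2] at h1
  have h3 : ((Nat.totient (pr n) : ℚ) : ℝ) =
      (((pr n : ℚ) * ∏ p ∈ n.primesLE, (1 - (p : ℚ)⁻¹) : ℚ) : ℝ) := by rw [h1]
  push_cast at h3
  rw [h3]
  unfold rh
  simp only [one_div]

theorem count_coprime (q k : ℕ) :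
    ((Finset.Ico 1 (1 + q * k)).filter (fun m => q.Coprime m)).card = k * q.totient := by
  induction k with
  | zero => simp
  | succ k ih =>
    have h1 : (Finset.Ico 1 (1 + q * (k + 1))).filter (fun m => q.Coprime m) =
        (Finset.Ico 1 (1 + q * k)).filter (fun m => q.Coprime m) ∪
          (Finset.Ico (1 + q * k) (1 + q * k + q)).filter (fun m => q.Coprime m) := by
      rw [← Finset.filter_union]
      congr 1
      rw [Finset.Ico_union_Ico_eq_Ico (by omega) (by omega)]
      congr 1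
      ring
    rw [h1, Finset.card_union_of_disjoint, ih, Nat.filter_coprime_Ico_eq_totient]
    · ring
    · apply Finset.disjoint_filter_filter
      rw [Finset.disjoint_left]
      intro x hx hx'
      rw [Finset.mem_Ico] at hx hx'
      omega

/-- `a ∈ S`, with greatest prime factor `P`, and `a / P` is not in `S` -/
def Pf (S : Set ℕ) (a P : ℕ) : Prop :=
  a ∈ S ∧ 0 < a ∧ P.Prime ∧ P ∣ a ∧ (∀ q : ℕ, q.Prime → q ∣ a → q ≤ P) ∧ a / P ∉ S

theorem dvd_of_le {S : Set ℕ} {a a' P P' m m' : ℕ} (h : Pf S a P) (h' : Pf S a' P')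
    (hm' : ∀ q : ℕ, q.Prime → q ∣ m' → P' < q) (he : a * m = a' * m') (hP : P ≤ P') :
    a ∣ a' := by
  have hc : Nat.Coprime a m' := by
    refine Nat.coprime_of_dvd fun q hq h1 h2 => ?_
    have h3 := h.2.2.2.2.1 q hq h1
    have h4 := hm' q hq h2
    omega
  exact Nat.Coprime.dvd_of_dvd_mul_right hc (he ▸ Dvd.intro m rfl)

theorem eq_of_mul {S : Set ℕ} (hS : IsMultClosed S) {a a' P P' m m' : ℕ} (h : Pf S a P)
    (h' : Pf S a' P') (hm : ∀ q : ℕ, q.Prime → q ∣ m → P < q)
    (hm' : ∀ q : ℕ, q.Prime → q ∣ m' → P' < q) (he : a * m = a' * m') : a = a' := by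
  have key : ∀ {a a' P P' m m' : ℕ}, Pf S a P → Pf S a' P' →
      (∀ q : ℕ, q.Prime → q ∣ m' → P' < q) → a * m = a' * m' → ¬ P < P' := by
    intro a a' P P' m m' h h' hm' he hlt
    have h1 := dvd_of_le h h' hm' he hlt.le
    obtain ⟨haS, ha0, hPp, hPa, hPm, hPn⟩ := h
    obtain ⟨haS', ha0', hPp', hPa', hPm', hPn'⟩ := h'
    have hc : Nat.Coprime a P' := by
      refine Nat.coprime_of_dvd fun q hq h3 h4 => ?_
      have h5 := (Nat.prime_dvd_prime_iff_eq hq hPp').1 h4
      have h6 := hPm q hq h3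
      omega
    have h2 : a ∣ a' / P' * P' := by rw [Nat.div_mul_cancel hPa']; exact h1
    obtain ⟨b, hb⟩ := Nat.Coprime.dvd_of_dvd_mul_right hc h2
    have hpos : 0 < a' / P' := Nat.div_pos (Nat.le_of_dvd ha0' hPa') hPp'.pos
    apply hPn'
    rw [hb]
    refine hS a haS b (Nat.pos_of_ne_zero ?_)
    rintro rfl
    rw [mul_zero] at hb
    omega
  have hPP : P = P' := by
    have h1 := key h h' hm' he
    have h2 := key h' h hm he.symm
    omega
  exact Nat.dvd_antisymm (dvd_of_le h h' hm' he hPP.le) (dvd_of_le h' h hm he.symm hPP.ge)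

theorem sum_rh_le {S : Set ℕ} (hS : IsMultClosed S) (F : Finset ℕ) (P : ℕ → ℕ)
    (hF : ∀ a ∈ F, Pf S a (P a)) : ∑ a ∈ F, 1 / (a : ℝ) * rh (P a) ≤ 1 := by
  classical
  set L := ∏ a ∈ F, a * pr (P a) with hL
  have hLpos : 0 < L := Finset.prod_pos fun a ha => Nat.mul_pos (hF a ha).2.1 (pr_pos _)
  have hk : ∀ a ∈ F, ∃ k, L = a * (pr (P a) * k) := by
    intro a ha
    obtain ⟨k, hk⟩ := Finset.dvd_prod_of_mem (fun a => a * pr (P a)) ha
    exact ⟨k, by rw [hL, hk]; ring⟩
  choose! k hk using hk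
  let G : ℕ → Finset ℕ := fun a =>
    (Finset.Ico 1 (1 + pr (P a) * k a)).filter (fun m => (pr (P a)).Coprime m)
  have hcard : (F.sigma G).card ≤ L := by
    have h1 : (F.sigma G).card ≤ (Finset.Ioc 0 L).card := by
      refine Finset.card_le_card_of_injOn (fun x => x.1 * x.2) ?_ ?_
      · rintro ⟨a, m⟩ hx
        simp only [G, Finset.coe_sigma, Set.mem_sigma_iff, Finset.mem_coe, Finset.mem_filter,
          Finset.mem_Ico] at hx
        obtain ⟨ha, ⟨hm1, hm2⟩, -⟩ := hx
        simp only [Finset.coe_Ioc, Set.mem_Ioc]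
        refine ⟨Nat.mul_pos (hF a ha).2.1 hm1, ?_⟩
        conv_rhs => rw [hk a ha]
        exact Nat.mul_le_mul_left a (by omega)
      · rintro ⟨a, m⟩ hx ⟨a', m'⟩ hx' he
        simp only [G, Finset.coe_sigma, Set.mem_sigma_iff, Finset.mem_coe, Finset.mem_filter,
          Finset.mem_Ico] at hx hx'
        obtain ⟨ha, ⟨hm1, hm2⟩, hc⟩ := hx
        obtain ⟨ha', ⟨hm1', hm2'⟩, hc'⟩ := hx'
        have hbig : ∀ {n m : ℕ}, (pr n).Coprime m → ∀ q : ℕ, q.Prime → q ∣ m → n < q := by
          intro n m hcop q hq hqm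
          by_contra hcon
          have h2 : q ∣ pr n :=
            Finset.dvd_prod_of_mem (fun p => p) (Nat.mem_primesLE.2 ⟨not_lt.1 hcon, hq⟩)
          exact hq.one_lt.ne' (Nat.eq_one_of_dvd_coprimes hcop h2 hqm)
        have h3 : a = a' := eq_of_mul hS (hF a ha) (hF a' ha') (hbig hc) (hbig hc') he
        subst h3
        have h4 : m = m' := Nat.eq_of_mul_eq_mul_left (hF a ha).2.1 he
        subst h4
        rfl
    simpa using h1
  rw [Finset.card_sigma] at hcard
  have h5 : ∀ a ∈ F, ((G a).card : ℝ) = L * (1 / (a : ℝ) * rh (P a)) := by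
    intro a ha
    have h6 : (G a).card = k a * (pr (P a)).totient := count_coprime _ _
    rw [h6]
    push_cast
    rw [totient_pr]
    have ha0 : (a : ℝ) ≠ 0 := by exact_mod_cast (hF a ha).2.1.ne'
    have h7 : (L : ℝ) = a * (pr (P a) * k a) := by exact_mod_cast hk a ha
    rw [h7]
    field_simp
  have h8 : ∑ a ∈ F, (L : ℝ) * (1 / (a : ℝ) * rh (P a)) ≤ L := by
    rw [← Finset.sum_congr rfl h5]
    exact_mod_cast hcard
  rw [← Finset.mul_sum] at h8
  have h9 : (0 : ℝ) < L := by exact_mod_cast hLpos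
  by_contra hcon
  push Not at hcon
  nlinarith

open Classical in
/-- the sum of `1 / (a log a)` over `AS S` is bounded -/
theorem sum_AS_le {S : Set ℕ} (hS : IsMultClosed S) (F : Finset ℕ) (hF : ∀ a ∈ F, a ∈ AS S) :
    ∑ a ∈ F, 1 / ((a : ℝ) * Real.log a) ≤ Real.exp 6 := by
  have h1 : ∀ a ∈ F, ∃ P, Pf S a P := by
    intro a ha
    obtain ⟨h2, h3, P, h4, h5, h6, h7⟩ := hF a ha
    exact ⟨P, h2, h3, h4, h5, h6, h7⟩
  choose! P hP using h1
  have h2 := sum_rh_le hS F P hP
  calc ∑ a ∈ F, 1 / ((a : ℝ) * Real.log a)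
      ≤ ∑ a ∈ F, Real.exp 6 * (1 / (a : ℝ) * rh (P a)) := by
        refine Finset.sum_le_sum fun a ha => ?_
        obtain ⟨h3, h4, h5, h6, h7, h8⟩ := hP a ha
        have h9 : P a ≤ a := Nat.le_of_dvd h4 h6
        have h10 := rh_ge h5.two_le
        have h11 : (0 : ℝ) < a := by exact_mod_cast h4
        have h12 : (1 : ℝ) < P a := by exact_mod_cast h5.one_lt
        have h13 : 0 < Real.log (P a) := Real.log_pos h12
        have h14 : Real.log (P a) ≤ Real.log a :=
          Real.log_le_log (by linarith) (by exact_mod_cast h9)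
        have h15 : Real.exp 6 * (Real.exp (-6) / Real.log (P a)) = 1 / Real.log (P a) := by
          rw [mul_div_assoc', ← Real.exp_add]
          norm_num
        calc 1 / ((a : ℝ) * Real.log a) = 1 / (a : ℝ) * (1 / Real.log a) := by
              rw [one_div_mul_one_div]
          _ ≤ 1 / (a : ℝ) * (1 / Real.log (P a)) := by
              gcongr
          _ = 1 / (a : ℝ) * (Real.exp 6 * (Real.exp (-6) / Real.log (P a))) := by rw [h15]
          _ ≤ 1 / (a : ℝ) * (Real.exp 6 * rh (P a)) := by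
              gcongr
          _ = Real.exp 6 * (1 / (a : ℝ) * rh (P a)) := by ring
    _ = Real.exp 6 * ∑ a ∈ F, 1 / (a : ℝ) * rh (P a) := by rw [Finset.mul_sum]
    _ ≤ Real.exp 6 * 1 := by gcongr
    _ = Real.exp 6 := mul_one _

end Pool.Agent.Helper84.FL
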