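import Pool.Agent.Helper84.FL.FL1
import Pool.Agent.Helper84.HD.M_CR
import Pool.Agent.Helper51.HD.M_DE
import Pool.Agent.Helper73.HD.M_PD
import Pool.Agent.Helper15.HD.M_SM
import Pool.Agent.Helper90.HD.M_AA

/-!
# FL (MP_8be7de_nt), part 2: the bad scales of a set closed under multiples

If `C S N > (t S + η) N` and `N` is large then `AS S` has at least `η N / 2` elements up to `N`; so the sum of
`1 / (N log N)` over these `N` is finite.
-/

set_option autoImplicit false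

namespace Pool.Agent.Helper84.FL

open Finset Filter Topology
open Pool.Agent.Helper4.DE (C Lg LogDens IsMultClosed t Bad C_nonneg C_le Lg_nonneg eventually_gt
  logDens_of_multClosed)
open Pool.Agent.Helper84.HD

/-- the decomposition -/
theorem decomp' (B : Set ℕ) (T N : ℕ) (κ : ℝ) :
    C (MB B) N ≤ C (MB (B ∩ Set.Iic T)) N +
      C {n | n ∉ MB (B ∩ Set.Iic T) ∧ ∃ P : ℕ, P.Prime ∧ (N : ℝ) ^ κ < P ∧ P ∣ n ∧
        n / P ∈ MB B} N +
      C {n | ∀ p : ℕ, p.Prime → p ∣ n → (p : ℝ) ≤ (N : ℝ) ^ κ} N + C (AS (MB B)) N := by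
  have h1 : C (MB B) N ≤ C ((MB (B ∩ Set.Iic T) ∪
      {n | n ∉ MB (B ∩ Set.Iic T) ∧ ∃ P : ℕ, P.Prime ∧ (N : ℝ) ^ κ < P ∧ P ∣ n ∧
        n / P ∈ MB B}) ∪ {n | ∀ p : ℕ, p.Prime → p ∣ n → (p : ℝ) ≤ (N : ℝ) ^ κ} ∪
      AS (MB B)) N := by
    refine C_mono fun n hn _ hS => ?_
    by_cases hT : n ∈ MB (B ∩ Set.Iic T)
    · exact Or.inl (Or.inl (Or.inl hT))
    by_cases hsm : ∀ p : ℕ, p.Prime → p ∣ n → (p : ℝ) ≤ (N : ℝ) ^ κ
    · exact Or.inl (Or.inr hsm)
    push Not at hsm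
    obtain ⟨P₀, hP₀, hP₀n, hP₀N⟩ := hsm
    obtain ⟨P, hP, hPmax⟩ := Finset.exists_max_image n.primeFactors id
      ⟨P₀, Nat.mem_primeFactors.2 ⟨hP₀, hP₀n, hn.ne'⟩⟩
    rw [Nat.mem_primeFactors] at hP
    have hmax : ∀ q : ℕ, q.Prime → q ∣ n → q ≤ P := fun q hq hqn =>
      hPmax q (Nat.mem_primeFactors.2 ⟨hq, hqn, hn.ne'⟩)
    have hPN : (N : ℝ) ^ κ < P := lt_of_lt_of_le hP₀N (by exact_mod_cast hmax P₀ hP₀ hP₀n)
    by_cases ha : n / P ∈ MB B
    · exact Or.inl (Or.inl (Or.inr ⟨hT, P, hP.1, hPN, hP.2.1, ha⟩))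
    · exact Or.inr ⟨hS, hn, P, hP.1, hP.2.1, hmax, ha⟩
  refine h1.trans ((C_union_le _ _ N).trans ?_)
  refine add_le_add ((C_union_le _ _ N).trans ?_) le_rfl
  exact add_le_add (C_union_le _ _ N) le_rfl

theorem bad_le (B : Set ℕ) {ε : ℝ} (hε : 0 < ε) :
    ∀ᶠ N : ℕ in atTop, N ∈ Bad (MB B) ε → ε / 2 * N ≤ C (AS (MB B)) N := by
  obtain ⟨K₁, hK₁, hSM⟩ := Pool.Agent.Helper15.HD.hSM
  obtain ⟨K₂, hK₂, hAA⟩ := Pool.Agent.Helper90.HD.hAA
  obtain ⟨κ, hκ0, hκ1, hκK⟩ : ∃ κ : ℝ, 0 < κ ∧ κ < 1 ∧ K₁ * κ ≤ ε / 8 := by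
    refine ⟨min (1 / 2) (ε / (8 * K₁)), by positivity, ?_, ?_⟩
    · exact lt_of_le_of_lt (min_le_left _ _) (by norm_num)
    · calc K₁ * min (1 / 2) (ε / (8 * K₁)) ≤ K₁ * (ε / (8 * K₁)) :=
            mul_le_mul_of_nonneg_left (min_le_right _ _) hK₁.le
        _ = ε / 8 := by field_simp
  obtain ⟨T, hT⟩ := Pool.Agent.Helper51.HD.hDE B (ε * κ / (16 * K₂)) (by positivity)
  have hsub : MB (B ∩ Set.Iic T) ⊆ MB B := MB_mono Set.inter_subset_left
  have htm := t_mono hsub (MB_closed B) (MB_closed (B ∩ Set.Iic T))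
  have hlog : Tendsto (fun N : ℕ => Lg (MB B \ MB (B ∩ Set.Iic T)) N / Real.log N) atTop
      (𝓝 (t (MB B) - t (MB (B ∩ Set.Iic T)))) := by
    have h1 := (logDens_of_multClosed (MB_closed B)).sub
      (logDens_of_multClosed (MB_closed (B ∩ Set.Iic T)))
    refine h1.congr fun N => ?_
    rw [Lg_sdiff hsub, sub_div]
  have e1 : ∀ᶠ N : ℕ in atTop, Lg (MB B \ MB (B ∩ Set.Iic T)) N / Real.log N <
      ε * κ / (8 * K₂) := by
    refine hlog.eventually (gt_mem_nhds ?_)
    have h2 : 0 < ε * κ / (16 * K₂) := by positivity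
    have h3 : ε * κ / (8 * K₂) = ε * κ / (16 * K₂) + ε * κ / (16 * K₂) := by
      field_simp
      ring
    linarith
  have e2 : ∀ᶠ N : ℕ in atTop, C (MB (B ∩ Set.Iic T)) N / N < t (MB B) + ε / 8 :=
    (Pool.Agent.Helper73.HD.hPD B T).eventually (gt_mem_nhds (by linarith))
  have e3 := hSM κ hκ0 hκ1
  have e4 := hAA (MB B) (MB (B ∩ Set.Iic T)) κ hκ0 hκ1 (MB_closed _)
  filter_upwards [e1, e2, e3, e4, eventually_gt_atTop 0] with N f1 f2 f3 f4 hN hbad
  have hN0 : (0 : ℝ) < N := by exact_mod_cast hN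
  have hbad' : t (MB B) + ε < C (MB B) N / N := hbad
  rw [div_lt_iff₀ hN0] at f2
  rw [lt_div_iff₀ hN0] at hbad'
  have hd := decomp' B T N κ
  have f3' : C {n | ∀ p : ℕ, p.Prime → p ∣ n → (p : ℝ) ≤ (N : ℝ) ^ κ} N ≤ ε / 8 * N :=
    f3.trans (mul_le_mul_of_nonneg_right hκK hN0.le)
  have f4' : K₂ / κ * N * (Lg (MB B \ MB (B ∩ Set.Iic T)) N / Real.log N) ≤ ε / 8 * N := by
    calc K₂ / κ * N * (Lg (MB B \ MB (B ∩ Set.Iic T)) N / Real.log N)
        ≤ K₂ / κ * N * (ε * κ / (8 * K₂)) :=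
          mul_le_mul_of_nonneg_left f1.le (by positivity)
      _ = ε / 8 * N := by
          field_simp
  have hεN : 0 < ε * N := by positivity
  nlinarith

theorem AS_two_le {S : Set ℕ} {a : ℕ} (h : a ∈ AS S) : 2 ≤ a := by
  obtain ⟨-, h1, P, h2, h3, -⟩ := h
  exact h2.two_le.trans (Nat.le_of_dvd h1 h3)

theorem sum_AS_C {S : Set ℕ} (hS : IsMultClosed S) (X : ℕ) :
    ∑ N ∈ Finset.range X, C (AS S) N * (1 / ((N : ℝ) ^ 2 * Real.log N)) ≤ 2 * Real.exp 6 := by
  classical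
  have h1 : ∀ N ∈ Finset.range X, C (AS S) N =
      ∑ a ∈ (Finset.Ioc 0 X).filter (· ∈ AS S), if a ≤ N then (1 : ℝ) else 0 := by
    intro N hN
    rw [Finset.mem_range] at hN
    rw [← Finset.sum_filter, Finset.sum_const, nsmul_eq_mul, mul_one]
    unfold C
    congr 2
    ext a
    simp only [Finset.mem_filter, Finset.mem_Ioc]
    constructor
    · rintro ⟨⟨h1, h2⟩, h3⟩
      exact ⟨⟨⟨h1, by omega⟩, h3⟩, h2⟩
    · rintro ⟨⟨⟨h1, h2⟩, h3⟩, h4⟩
      exact ⟨⟨h1, h4⟩, h3⟩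
  calc ∑ N ∈ Finset.range X, C (AS S) N * (1 / ((N : ℝ) ^ 2 * Real.log N))
      = ∑ N ∈ Finset.range X, ∑ a ∈ (Finset.Ioc 0 X).filter (· ∈ AS S),
        (if a ≤ N then (1 / ((N : ℝ) ^ 2 * Real.log N)) else 0) := by
        refine Finset.sum_congr rfl fun N hN => ?_
        rw [h1 N hN, Finset.sum_mul]
        refine Finset.sum_congr rfl fun a _ => ?_
        split_ifs <;> simp
    _ = ∑ a ∈ (Finset.Ioc 0 X).filter (· ∈ AS S), ∑ N ∈ Finset.range X,
        (if a ≤ N then (1 / ((N : ℝ) ^ 2 * Real.log N)) else 0) := Finset.sum_comm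
    _ ≤ ∑ a ∈ (Finset.Ioc 0 X).filter (· ∈ AS S), 2 * (1 / ((a : ℝ) * Real.log a)) := by
        refine Finset.sum_le_sum fun a ha => ?_
        have ha2 := AS_two_le (Finset.mem_filter.1 ha).2
        have hla : 0 < Real.log a := Real.log_pos (by exact_mod_cast (by omega : 1 < a))
        have ha0 : (0 : ℝ) < a := by exact_mod_cast (by omega : 0 < a)
        rw [← Finset.sum_filter]
        have h2 : (Finset.range X).filter (fun N => a ≤ N) = Finset.Ioo (a - 1) X := by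
          ext N
          simp only [Finset.mem_filter, Finset.mem_range, Finset.mem_Ioo]
          omega
        rw [h2]
        calc ∑ N ∈ Finset.Ioo (a - 1) X, 1 / ((N : ℝ) ^ 2 * Real.log N)
            ≤ ∑ N ∈ Finset.Ioo (a - 1) X, (1 / Real.log a) * ((N : ℝ) ^ 2)⁻¹ := by
              refine Finset.sum_le_sum fun N hN => ?_
              rw [Finset.mem_Ioo] at hN
              have h3 : (a : ℝ) ≤ N := by exact_mod_cast (by omega : a ≤ N)
              have h4 : Real.log a ≤ Real.log N := Real.log_le_log ha0 h3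
              have h5 : (0 : ℝ) < N := by linarith
              calc 1 / ((N : ℝ) ^ 2 * Real.log N) = (1 / Real.log N) * ((N : ℝ) ^ 2)⁻¹ := by
                    rw [one_div, one_div, mul_inv, mul_comm]
                _ ≤ (1 / Real.log a) * ((N : ℝ) ^ 2)⁻¹ := by gcongr
          _ = (1 / Real.log a) * ∑ N ∈ Finset.Ioo (a - 1) X, ((N : ℝ) ^ 2)⁻¹ := by
              rw [Finset.mul_sum]
          _ ≤ (1 / Real.log a) * (2 / (((a - 1 : ℕ) : ℝ) + 1)) := by
              gcongr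
              exact sum_Ioo_inv_sq_le (a - 1) X
          _ = 2 * (1 / ((a : ℝ) * Real.log a)) := by
              have h6 : ((a - 1 : ℕ) : ℝ) + 1 = a := by
                exact_mod_cast (by omega : a - 1 + 1 = a)
              rw [h6]
              field_simp
    _ = 2 * ∑ a ∈ (Finset.Ioc 0 X).filter (· ∈ AS S), 1 / ((a : ℝ) * Real.log a) := by
        rw [Finset.mul_sum]
    _ ≤ 2 * Real.exp 6 := by
        gcongr
        exact sum_AS_le hS _ fun a ha => (Finset.mem_filter.1 ha).2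

/-- the weight of the scale `N` -/
noncomputable def wt (N : ℕ) : ℝ := 1 / ((N : ℝ) * Real.log N)

theorem wt_nonneg (N : ℕ) : 0 ≤ wt N := by
  have := Real.log_natCast_nonneg N
  unfold wt
  positivity

theorem MB_self {S : Set ℕ} (hS : IsMultClosed S) (hpos : ∀ n ∈ S, 0 < n) : MB S = S := by
  ext n
  constructor
  · rintro ⟨hn, b, hb, k, rfl⟩
    refine hS b hb k (Nat.pos_of_ne_zero ?_)
    rintro rfl
    simp at hn
  · intro hn
    exact ⟨hpos n hn, n, hn, dvd_rfl⟩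

/-- the bad scales have a finite sum of `1 / (N log N)` -/
theorem bad_summable {S : Set ℕ} (hS : IsMultClosed S) (hpos : ∀ n ∈ S, 0 < n) {ε : ℝ}
    (hε : 0 < ε) : Summable (Set.indicator (Bad S ε) wt) := by
  classical
  have hb := bad_le S hε
  rw [MB_self hS hpos] at hb
  obtain ⟨N₀, hN₀⟩ := eventually_atTop.1 hb
  refine summable_of_sum_range_le (c := ∑ N ∈ Finset.range N₀, wt N + 2 / ε * (2 * Real.exp 6))
    (fun N => Set.indicator_nonneg (fun _ _ => wt_nonneg _) N) fun X => ?_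
  have h1 : ∀ N, Set.indicator (Bad S ε) wt N ≤ (if N < N₀ then wt N else 0) +
      2 / ε * (C (AS S) N * (1 / ((N : ℝ) ^ 2 * Real.log N))) := by
    intro N
    have h2 : 0 ≤ 2 / ε * (C (AS S) N * (1 / ((N : ℝ) ^ 2 * Real.log N))) := by
      have := Real.log_natCast_nonneg N
      have := C_nonneg (AS S) N
      positivity
    by_cases hN : N ∈ Bad S ε
    · rw [Set.indicator_of_mem hN]
      by_cases hlt : N < N₀
      · rw [if_pos hlt]
        linarith
      · rw [if_neg hlt, zero_add]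
        have h3 := hN₀ N (not_lt.1 hlt) hN
        have h4 : (N : ℝ) ≤ 2 / ε * C (AS S) N := by
          rw [div_mul_eq_mul_div, le_div_iff₀ hε]
          linarith
        have h5 : wt N = N * (1 / ((N : ℝ) ^ 2 * Real.log N)) := by
          unfold wt
          rcases Nat.eq_zero_or_pos N with rfl | h0
          · simp
          · have : (N : ℝ) ≠ 0 := by positivity
            field_simp
        rw [h5, ← mul_assoc]
        have := Real.log_natCast_nonneg N
        gcongr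
    · rw [Set.indicator_of_notMem hN]
      have : 0 ≤ (if N < N₀ then wt N else 0) := by
        split_ifs
        · exact wt_nonneg N
        · exact le_rfl
      linarith
  calc ∑ N ∈ Finset.range X, Set.indicator (Bad S ε) wt N
      ≤ ∑ N ∈ Finset.range X, ((if N < N₀ then wt N else 0) +
        2 / ε * (C (AS S) N * (1 / ((N : ℝ) ^ 2 * Real.log N)))) :=
        Finset.sum_le_sum fun N _ => h1 N
    _ = ∑ N ∈ (Finset.range X).filter (fun N => N < N₀), wt N +
        2 / ε * ∑ N ∈ Finset.range X, C (AS S) N * (1 / ((N : ℝ) ^ 2 * Real.log N)) := by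
        rw [Finset.sum_add_distrib, Finset.sum_filter, Finset.mul_sum]
    _ ≤ ∑ N ∈ Finset.range N₀, wt N + 2 / ε * (2 * Real.exp 6) := by
        have h6 := sum_AS_C hS X
        have h7 : ∑ N ∈ (Finset.range X).filter (fun N => N < N₀), wt N ≤
            ∑ N ∈ Finset.range N₀, wt N := by
          refine Finset.sum_le_sum_of_subset_of_nonneg ?_ fun N _ _ => wt_nonneg N
          intro N hN
          exact Finset.mem_range.2 (Finset.mem_filter.1 hN).2
        gcongr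

end Pool.Agent.Helper84.FL
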