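import Pool.Agent.Helper84.FL.FL2

/-!
# FL (MP_8be7de_nt), part 3: one exceptional set
-/

set_option autoImplicit false

namespace Pool.Agent.Helper84.FL

open Filter Topology
open scoped ENNReal

theorem tail_small {A : Set ℕ} (hA : Summable (Set.indicator A wt)) {δ : ℝ≥0∞} (hδ : 0 < δ) :
    ∃ n : ℕ, ∑' N : ℕ, (if n ≤ N then ENNReal.ofReal (Set.indicator A wt N) else 0) < δ := by
  have h1 : ∑' N, ENNReal.ofReal (Set.indicator A wt N) ≠ ∞ := by
    rw [← ENNReal.ofReal_tsum_of_nonneg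
      (fun N => Set.indicator_nonneg (fun _ _ => wt_nonneg _) N) hA]
    exact ENNReal.ofReal_ne_top
  have h2 := ENNReal.tendsto_sum_nat_add _ h1
  obtain ⟨n, hn⟩ := (h2.eventually (gt_mem_nhds hδ)).exists
  refine ⟨n, lt_of_eq_of_lt ?_ hn⟩
  have h3 := Function.Injective.tsum_eq
    (f := fun N : ℕ => if n ≤ N then ENNReal.ofReal (Set.indicator A wt N) else 0)
    (g := fun k : ℕ => k + n) (add_left_injective n) (by
      intro N hN
      rw [Function.mem_support] at hN
      have h4 : n ≤ N := by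
        by_contra h5
        exact hN (if_neg h5)
      exact ⟨N - n, Nat.sub_add_cancel h4⟩)
  rw [← h3]
  simp

/-- countably many sets of finite weight are contained in one, up to finitely many elements -/
theorem diag' (E : ℕ → Set ℕ) (hE : ∀ j, Summable (Set.indicator (E j) wt)) :
    ∃ G : Set ℕ, Summable (Set.indicator G wt) ∧ ∀ j, ∀ᶠ n in atTop, n ∈ E j → n ∈ G := by
  have h1 : ∀ j : ℕ, ∃ n : ℕ, ∑' N : ℕ,
      (if n ≤ N then ENNReal.ofReal (Set.indicator (E j) wt N) else 0) < (2 : ℝ≥0∞)⁻¹ ^ j :=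
    fun j => tail_small (hE j) (ENNReal.pow_pos (by simp) j)
  choose n hn using h1
  refine ⟨{N | ∃ j, N ∈ E j ∧ n j ≤ N}, ?_, ?_⟩
  · have h2 : ∑' N : ℕ, ENNReal.ofReal (Set.indicator {N | ∃ j, N ∈ E j ∧ n j ≤ N} wt N) ≠ ∞ := by
      refine ne_top_of_le_ne_top (b := 2) (by simp) ?_
      calc ∑' N : ℕ, ENNReal.ofReal (Set.indicator {N | ∃ j, N ∈ E j ∧ n j ≤ N} wt N)
          ≤ ∑' N : ℕ, ∑' j : ℕ,
            (if n j ≤ N then ENNReal.ofReal (Set.indicator (E j) wt N) else 0) := by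
            refine ENNReal.tsum_le_tsum fun N => ?_
            by_cases hN : ∃ j, N ∈ E j ∧ n j ≤ N
            · obtain ⟨j, hj, hj'⟩ := hN
              refine le_trans ?_ (ENNReal.le_tsum j)
              rw [if_pos hj', Set.indicator_of_mem hj,
                Set.indicator_of_mem (show N ∈ {N | ∃ j, N ∈ E j ∧ n j ≤ N} from ⟨j, hj, hj'⟩)]
            · rw [Set.indicator_of_notMem (show N ∉ {N | ∃ j, N ∈ E j ∧ n j ≤ N} from hN)]
              simp
        _ = ∑' j : ℕ, ∑' N : ℕ,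
            (if n j ≤ N then ENNReal.ofReal (Set.indicator (E j) wt N) else 0) :=
            ENNReal.tsum_comm
        _ ≤ ∑' j : ℕ, (2 : ℝ≥0∞)⁻¹ ^ j := ENNReal.tsum_le_tsum fun j => (hn j).le
        _ = 2 := by rw [ENNReal.tsum_geometric, ENNReal.one_sub_inv_two, inv_inv]
    have h3 := ENNReal.summable_toReal h2
    refine h3.congr fun N => ?_
    exact ENNReal.toReal_ofReal (Set.indicator_nonneg (fun _ _ => wt_nonneg _) N)
  · intro j
    filter_upwards [eventually_ge_atTop (n j)] with N hN hNE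
    exact ⟨j, hNE, hN⟩

end Pool.Agent.Helper84.FL
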